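import Mathlib

/-!
A regular self-complementary graph on nine vertices with a vertex lying in exactly two
triangles which is fixed by no antimorphism.
-/

namespace Pool.Agent.Results.MP_b6be33_co.NineVertexCounterexample

/-- Adjacency table of the example (rows as bit lists). -/
def tbl : Fin 9 → Fin 9 → Bool := ![
  ![false, false, true, false, true, true, false, true, false],
  ![false, false, false, false, true, false, true, true, true],
  ![true, false, false, true, true, false, true, false, false],
  ![false, false, true, false, false, true, true, false, true],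
  ![true, true, true, false, false, false, false, false, true],
  ![true, false, false, true, false, false, true, true, false],
  ![false, true, true, true, false, true, false, false, false],
  ![true, true, false, false, false, true, false, false, true],
  ![false, true, false, true, true, false, false, true, false]]

/-- The example graph. -/
def G9 : SimpleGraph (Fin 9) where
  Adj i j := tbl i j = true
  symm := ⟨by decide⟩
  loopless := ⟨by decide⟩

instance : DecidableRel G9.Adj := fun i j => inferInstanceAs (Decidable (tbl i j = true))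

/-- The antimorphism `0 ↦ 0`, `(1 2 3 4)(5 6 7 8)`. -/
def perm : Equiv.Perm (Fin 9) where
  toFun := ![0, 2, 3, 4, 1, 6, 7, 8, 5]
  invFun := ![0, 4, 1, 2, 3, 8, 5, 6, 7]
  left_inv := by decide
  right_inv := by decide

theorem perm_anti : ∀ i j : Fin 9, G9ᶜ.Adj (perm i) (perm j) ↔ G9.Adj i j := by decide

theorem reg : ∀ v : Fin 9, G9.degree v = 4 := by decide

theorem no_fix (P : G9 ≃g G9ᶜ) : P 1 ≠ 1 := by
  intro h
  have h6 : G9.Adj 1 6 := by decide
  have h6' : G9ᶜ.Adj 1 (P 6) := by
    have := (P.map_rel_iff (a := 1) (b := 6)).2 h6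
    simpa only [RelIso.coe_fn_toEquiv, h] using this
  -- every non-neighbour of `1` has a non-adjacent other non-neighbour of `1`
  have key : ∀ m : Fin 9, G9ᶜ.Adj 1 m →
      ∃ m' : Fin 9, G9ᶜ.Adj 1 m' ∧ G9ᶜ.Adj m m' := by decide
  obtain ⟨m', hm1, hm2⟩ := key _ h6'
  obtain ⟨w, rfl⟩ := P.surjective m'
  have hw : G9.Adj 1 w := by
    apply (P.map_rel_iff (a := 1) (b := w)).1
    simpa only [RelIso.coe_fn_toEquiv, h] using hm1
  have hw6 : G9.Adj 6 w := (P.map_rel_iff (a := 6) (b := w)).1 hm2
  have : ∀ w : Fin 9, G9.Adj 1 w → ¬ G9.Adj 6 w := by decide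
  exact this w hw hw6

/-- The converse proposed in the problem fails: it is not true that, in every regular
self-complementary graph on `4k+1` vertices, every vertex lying in exactly `k(k-1)` triangles
is fixed by some isomorphism onto the complement. -/
theorem result : ¬ ∀ (k : ℕ) (V : Type) [Fintype V] [DecidableEq V] (G : SimpleGraph V)
    [DecidableRel G.Adj], Fintype.card V = 4 * k + 1 → (∃ r : ℕ, G.IsRegularOfDegree r) →
    Nonempty (G ≃g Gᶜ) → ∀ v : V,
      ((G.cliqueFinset 3).filter (fun t => v ∈ t)).card = k * (k - 1) →
      ∃ P : G ≃g Gᶜ, P v = v := by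
  intro H
  obtain ⟨P, hP⟩ := H 2 (Fin 9) G9 (by decide) ⟨4, reg⟩
    ⟨⟨perm, by intro a b; exact perm_anti a b⟩⟩ 1 (by decide +kernel)
  exact no_fix P hP

end Pool.Agent.Results.MP_b6be33_co.NineVertexCounterexample
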